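import Pool.Agent.H74.G.R_seed8.Y504.CO.Stm2

/-!
Project CO (owner helper504), job TRK: phases of orbits converging to a periodic orbit.
-/

set_option autoImplicit false

open scoped Manifold ContDiff Topology
open Filter Set Metric

universe u

namespace Pool.Agent.Y417.CO.TRK

open Pool.Agent.Y504.CO

/-- Neighbourhoods of the points of a periodic orbit with phases. -/
theorem phases {X : Type u} [TopologicalSpace X] [T2Space X] {f : X → X} (hf : Continuous f)
    {p : X} {m : ℕ} (hm : 1 ≤ m) (hp : f^[m] p = p) :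
    ∃ (k : ℕ) (_ : NeZero k) (N : ZMod k → Set X), k ∣ m ∧ (∀ j, IsOpen (N j)) ∧ p ∈ N 0 ∧
      (∀ y ∈ orb f p, y = p ∨ ∃ j, j ≠ 0 ∧ y ∈ N j) ∧
      (∀ j l x, x ∈ N j → x ∈ N l → j = l) ∧ ∀ j l x, x ∈ N j → f x ∈ N l → l = j + 1 := by
  have hper : Function.IsPeriodicPt f m p := hp
  set k := Function.minimalPeriod f p with hk
  have hk0 : 0 < k := hper.minimalPeriod_pos hm
  have : NeZero k := ⟨hk0.ne'⟩
  let q : ZMod k → X := fun j => f^[j.val] p
  have hq : ∀ i : ℕ, q (i : ZMod k) = f^[i] p := by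
    intro i
    simp only [q, ZMod.val_natCast]
    exact Function.iterate_mod_minimalPeriod_eq
  have hqinj : Function.Injective q := by
    intro i j hij
    apply ZMod.val_injective k
    exact Function.iterate_injOn_Iio_minimalPeriod (ZMod.val_lt i) (ZMod.val_lt j) hij
  have hqs : ∀ j, f (q j) = q (j + 1) := by
    intro j
    have h1 : q (j + 1) = q ((j.val + 1 : ℕ) : ZMod k) := by
      congr 1
      push_cast
      rw [ZMod.natCast_zmod_val]
    rw [h1, hq, Function.iterate_succ_apply']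
  obtain ⟨U, hU, hdis⟩ := (Set.finite_range q).t2_separation
  let O : ZMod k → Set X := fun j => U (q j)
  have hO : ∀ j l x, x ∈ O j → x ∈ O l → j = l := by
    intro j l x h1 h2
    by_contra hne
    have h3 := hdis (mem_range_self j) (mem_range_self l) (fun h => hne (hqinj h))
    exact (Set.disjoint_left.1 h3) h1 h2
  let N : ZMod k → Set X := fun j => O j ∩ f ⁻¹' O (j + 1)
  have hqN : ∀ j, q j ∈ N j := fun j => ⟨(hU _).1, by
    show f (q j) ∈ O (j + 1)
    rw [hqs]
    exact (hU _).1⟩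
  have hq0 : q 0 = p := by
    have := hq 0
    simpa using this
  refine ⟨k, this, N, hper.minimalPeriod_dvd, fun j => (hU _).2.inter ((hU _).2.preimage hf), ?_,
    ?_, fun j l x h1 h2 => hO j l x h1.1 h2.1, ?_⟩
  · have := hqN 0
    rwa [hq0] at this
  · rintro _ ⟨i, rfl⟩
    have h1 : f^[i] p = q (i : ZMod k) := (hq i).symm
    by_cases hi : (i : ZMod k) = 0
    · left
      show f^[i] p = p
      rw [h1, hi, hq0]
    · right
      refine ⟨i, hi, ?_⟩
      show f^[i] p ∈ _
      rw [h1]
      exact hqN _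
  · intro j l x h1 h2
    exact hO _ _ _ h2.1 h1.2

/-- Convergence to `p` from the convergence to the orbit and the phase `0`. -/
theorem conv {X : Type u} [TopologicalSpace X] {f : X → X} {p : X} {k : ℕ} {N : ZMod k → Set X}
    (hNo : ∀ j, IsOpen (N j)) (hp : p ∈ N 0)
    (horb : ∀ y ∈ orb f p, y = p ∨ ∃ j, j ≠ 0 ∧ y ∈ N j)
    (hdis : ∀ j l x, x ∈ N j → x ∈ N l → j = l) (y : ℕ → X)
    (hy : ∀ O : Set X, IsOpen O → orb f p ⊆ O → ∀ᶠ i in atTop, y i ∈ O) (h0 : ∀ i, y i ∈ N 0) :
    Tendsto y atTop (𝓝 p) := by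
  rw [_root_.tendsto_nhds]
  intro O hO hpO
  have h1 := hy ((N 0 ∩ O) ∪ ⋃ j : {j : ZMod k // j ≠ 0}, N j)
    (((hNo 0).inter hO).union (isOpen_iUnion fun j => hNo _)) (by
      intro z hz
      rcases horb z hz with rfl | ⟨j, hj, hz⟩
      · exact Or.inl ⟨hp, hpO⟩
      · exact Or.inr (mem_iUnion.2 ⟨⟨j, hj⟩, hz⟩))
  filter_upwards [h1] with i hi
  rcases hi with hi | hi
  · exact hi.2
  · obtain ⟨j, hj⟩ := mem_iUnion.1 hi
    exact absurd (hdis _ _ _ hj (h0 i)) j.2

theorem main : Pool.Agent.Y504.CO.S_TRK := by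
  intro X _ _ _ f hf _ p m hm hp
  obtain ⟨k, hk, N, hkm, hNo, hp0, horb, hdis, hstep⟩ := phases hf hm hp
  have hUo : IsOpen (⋃ j, N j) := isOpen_iUnion hNo
  have horbU : orb f p ⊆ ⋃ j, N j := by
    intro z hz
    rcases horb z hz with rfl | ⟨j, -, hz⟩
    · exact mem_iUnion.2 ⟨0, hp0⟩
    · exact mem_iUnion.2 ⟨j, hz⟩
  have hmk : (m : ZMod k) = 0 := (ZMod.natCast_eq_zero_iff m k).2 hkm
  refine ⟨?_, ?_⟩
  · intro s hs A
    obtain ⟨i0, hi0⟩ := eventually_atTop.1 (hs _ hUo horbU)
    obtain ⟨j0, hj0⟩ := mem_iUnion.1 (hi0 i0 le_rfl)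
    have hph : ∀ i, i0 ≤ i → f^[i] s ∈ N (j0 - i0 + i) := by
      intro i hi
      induction i, hi using Nat.le_induction with
      | base => rwa [sub_add_cancel]
      | succ i hi ih =>
        obtain ⟨l, hl⟩ := mem_iUnion.1 (hi0 (i + 1) (by omega))
        rw [Function.iterate_succ_apply'] at hl ⊢
        have := hstep _ _ _ ih hl
        rw [this] at hl
        convert hl using 2
        push_cast
        ring
    obtain ⟨c, hc⟩ : ∃ c : ZMod k, c = j0 - i0 := ⟨_, rfl⟩
    refine ⟨(-c).val + k * max i0 A, ?_, ?_⟩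
    · have h1 : max i0 A ≤ k * max i0 A := Nat.le_mul_of_pos_left _ (Nat.pos_of_ne_zero hk.out)
      have h2 := le_max_right i0 A
      omega
    · refine conv hNo hp0 horb hdis _ ?_ ?_
      · intro O hO hOo
        have h1 := hs O hO hOo
        refine (tendsto_atTop_mono (fun i => ?_) tendsto_id).eventually h1
        have : i ≤ m * i := Nat.le_mul_of_pos_left _ hm
        simp only [id]
        omega
      · intro i
        have h1 : max i0 A ≤ k * max i0 A := Nat.le_mul_of_pos_left _ (Nat.pos_of_ne_zero hk.out)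
        have h2 := le_max_left i0 A
        have h3 := hph ((-c).val + k * max i0 A + m * i) (by omega)
        have h4 : (j0 - i0 + (((-c).val + k * max i0 A + m * i : ℕ) : ZMod k)) = 0 := by
          push_cast
          rw [ZMod.natCast_zmod_val, hmk, ← hc, ZMod.natCast_self]
          ring
        rwa [h4] at h3
  · intro x hx hs A
    obtain ⟨i0, hi0⟩ := eventually_atBot.1 (hs _ hUo horbU)
    obtain ⟨j0, hj0⟩ := mem_iUnion.1 (hi0 i0 le_rfl)
    have hph : ∀ i : ℕ, x (i0 - i) ∈ N (j0 - i) := by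
      intro i
      induction i with
      | zero => simpa using hj0
      | succ i ih =>
        obtain ⟨l, hl⟩ := mem_iUnion.1 (hi0 (i0 - ((i + 1 : ℕ) : ℤ)) (by push_cast; omega))
        have h1 : f (x (i0 - ((i + 1 : ℕ) : ℤ))) = x (i0 - i) := by
          rw [hx]
          congr 1
          push_cast
          ring
        have h2 : f (x (i0 - ((i + 1 : ℕ) : ℤ))) ∈ N (j0 - i) := by rw [h1]; exact ih
        have h3 := hstep _ _ _ hl h2
        have h4 : l = j0 - ((i + 1 : ℕ) : ZMod k) := by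
          push_cast
          rw [← sub_sub, h3]
          ring
        rwa [h4] at hl
    -- `x (i0 - i)` has phase `j0 - i`; choose `i` with `i = j0` modulo `k`
    obtain ⟨c, hc⟩ : ∃ c : ℕ, c = j0.val + k * (A + i0.natAbs) := ⟨_, rfl⟩
    have hck : (c : ZMod k) = j0 := by
      rw [hc]
      push_cast
      rw [ZMod.natCast_zmod_val, ZMod.natCast_self]
      ring
    have hcA : A + i0.natAbs ≤ c := by
      have : A + i0.natAbs ≤ k * (A + i0.natAbs) :=
        Nat.le_mul_of_pos_left _ (Nat.pos_of_ne_zero hk.out)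
      omega
    obtain ⟨b, hb⟩ : ∃ b : ℕ, (b : ℤ) = c - i0 := ⟨((c : ℤ) - i0).toNat, by omega⟩
    refine ⟨b, by omega, ?_⟩
    refine conv hNo hp0 horb hdis _ ?_ ?_
    · intro O hO hOo
      have h1 := hs O hO hOo
      have h2 : Tendsto (fun i : ℕ => -(b : ℤ) - m * i) atTop atBot := by
        have h3 : Tendsto (fun i : ℕ => -((i : ℕ) : ℤ)) atTop atBot :=
          tendsto_neg_atTop_atBot.comp tendsto_natCast_atTop_atTop
        refine tendsto_atBot_mono (fun i => ?_) h3
        have : (i : ℤ) ≤ m * i := by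
          have : i ≤ m * i := Nat.le_mul_of_pos_left _ hm
          exact_mod_cast this
        omega
      exact h2.eventually h1
    · intro i
      have h3 := hph (c + m * i)
      have h4 : (j0 - ((c + m * i : ℕ) : ZMod k)) = 0 := by
        push_cast
        rw [hck, hmk]
        ring
      have h5 : i0 - ((c + m * i : ℕ) : ℤ) = -(b : ℤ) - m * i := by
        push_cast
        rw [hb]
        ring
      rwa [h4, h5] at h3

end Pool.Agent.Y417.CO.TRK
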